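import Pool.Agent.MP_037c5a_pr.TL.Main
import Pool.Agent.MP_037c5a_pr.TL.Det
import Pool.Agent.MP_037c5a_pr.TL.Prob
import Pool.Agent.MP_037c5a_pr.TL.Reset
import Pool.Agent.Mg.S19113.Gb9d01c
import Pool.Agent.Mg.S19113.Ge48dc8

namespace Pool.Agent.Results.MP_037c5a_pr.PerturbedTrace

/-- Almost surely, every curve in a metric space whose distances are comparable with those of the
planar Brownian path up to an error `o(|s-t|^(1/2))` has conformal dimension at least two. -/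
theorem result :
  ∀ (Ω : Type) [MeasurableSpace Ω] (P : MeasureTheory.Measure Ω)
    [MeasureTheory.IsProbabilityMeasure P] (B : Fin 2 → NNReal → Ω → ℝ),
    (∀ i ω, Continuous (fun t => B i t ω)) →
    (∀ i, ∀ s t : NNReal, s ≤ t →
      P.map (fun ω => B i t ω - B i s ω) = ProbabilityTheory.gaussianReal 0 (t - s)) →
    (∀ i (n : ℕ) (τ : Fin (n + 1) → NNReal), Monotone τ →
      ProbabilityTheory.iIndepFun
        (fun (k : Fin n) (ω : Ω) => B i (τ k.succ) ω - B i (τ k.castSucc) ω) P) →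
    ProbabilityTheory.IndepFun (fun ω t => B 0 t ω) (fun ω t => B 1 t ω) P →
    ∀ᵐ ω ∂P, ∀ β : NNReal → EuclideanSpace ℝ (Fin 2),
      (∀ t i, β t i = B i t ω) →
      ∀ u v : NNReal, u < v →
      ∀ (X : Type) [MetricSpace X] (γ : NNReal → X) (C : ℝ),
        (∀ ε : ℝ, 0 < ε → ∃ δ : ℝ, 0 < δ ∧ ∀ s ∈ Set.Icc u v, ∀ t ∈ Set.Icc u v, dist s t ≤ δ →
          dist (γ s) (γ t) ≤ C * dist (β s) (β t) + ε * Real.sqrt (dist s t) ∧
          dist (β s) (β t) ≤ C * dist (γ s) (γ t) + ε * Real.sqrt (dist s t)) →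
        ∀ S : Set X, S = γ '' Set.Icc u v →
        ∀ (Y : Type) [MetricSpace Y] (f : S → Y) (η : ℝ → ℝ),
          Function.Injective f →
          StrictMonoOn η (Set.Ici 0) →
          ContinuousOn η (Set.Ici 0) →
          η 0 = 0 →
          (∀ x a b : S, a ≠ b →
            dist (f x) (f a) ≤ η (dist x a / dist b a) * dist (f b) (f a)) →
          (2 : ENNReal) ≤ dimH (Set.range f) := by
  intro Ω _ P _ B hc hlaw hind hI
  have hC := Pool.Agent.MP_037c5a_pr.stmtChain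
  have hM := Pool.Agent.MP_037c5a_pr.stmtMom_of hC
  have hS := Pool.Agent.MP_037c5a_pr.stmtSplit
  have h := Pool.Agent.MP_037c5a_pr.TL.mp_all
    (Pool.Agent.MP_037c5a_pr.TL.final_ofV Pool.Agent.MP_037c5a_pr.TL.stmtDetV
      (Pool.Agent.MP_037c5a_pr.TL.stmtProbV_of Pool.Agent.MP_037c5a_pr.stmtEnergy
        Pool.Agent.MP_037c5a_pr.stmtConc hC hS hM (Pool.Agent.MP_037c5a_pr.TL.reset_of hM hS)))
    Ω P B hc hlaw hind hI
  filter_upwards [h] with ω hω β hβ u v huv X _ γ C hm S hS'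
  have e : β = Pool.Agent.MP_037c5a_pr.Fi.Bv B ω := by
    funext t
    ext i
    exact hβ t i
  subst e hS'
  exact Pool.Agent.MP_037c5a_pr.TL.curve_all
    ((PiLp.continuous_toLp 2 _).comp (continuous_pi fun i => hc i ω)) hω huv γ C hm

end Pool.Agent.Results.MP_037c5a_pr.PerturbedTrace
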